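import Mathlib

/-!
# MP_a310d2_co: the outer mutual-visibility number under vertex deletion

There are no constants `a, b` with `μ_o(G - x) ≤ a μ_o(G) + b`.  Take a path with `n` vertices,
attach to each of its vertices a path with `n` vertices (counting the vertex on the spine), and
join the other ends of these paths to a new vertex `x`.  The outer mutual-visibility number of this
graph is at most 14, but after deleting `x` one gets a tree with `n` leaves.
-/

namespace Pool.Agent.Results.MP_a310d2_co.VertexDeletion

open SimpleGraph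

/-- `u` and `v` are `S`-visible: some shortest `u`-`v` path has no internal vertex in `S`. -/
def Visible {V : Type*} (G : SimpleGraph V) (S : Finset V) (u v : V) : Prop :=
  ∃ p : G.Walk u v, p.IsPath ∧ p.length = G.dist u v ∧ ∀ y ∈ p.support, y ≠ u → y ≠ v → y ∉ S

/-- `S` is an outer mutual-visibility set. -/
def IsOuter {V : Type*} (G : SimpleGraph V) (S : Finset V) : Prop :=
  ∀ u ∈ S, ∀ v, Visible G S u v

/-- The outer mutual-visibility number: the largest size of an outer mutual-visibility set. -/
noncomputable def muO {V : Type*} (G : SimpleGraph V) : ℕ :=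
  sSup {n | ∃ S : Finset V, S.card = n ∧ IsOuter G S}

/-- The graph `G - x`. -/
def del {V : Type*} (G : SimpleGraph V) (x : V) : SimpleGraph {y // y ≠ x} := G.comap Subtype.val

/-! ### Blocking -/

lemma walk_lip {V : Type*} {G : SimpleGraph V} (F : V → ℤ) (w : V)
    (hF : ∀ y z, G.Adj y z → y ≠ w → z ≠ w → F z - F y ≤ 1) {u v : V} (p : G.Walk u v)
    (hw : w ∉ p.support) : F v - F u ≤ p.length := by
  induction p with
  | nil => simp
  | @cons a b c h q ih =>
    rw [Walk.support_cons, List.mem_cons, not_or] at hw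
    have h1 := ih hw.2
    have h2 := hF a b h (Ne.symm hw.1) (by
      rintro rfl
      exact hw.2 q.start_mem_support)
    rw [Walk.length_cons]
    push_cast
    linarith

lemma not_blocked {V : Type*} {G : SimpleGraph V} {S : Finset V} (hS : IsOuter G S) {u w v : V}
    (hu : u ∈ S) (hw : w ∈ S) (hwu : w ≠ u) (hwv : w ≠ v) (F : V → ℤ)
    (hF : ∀ y z, G.Adj y z → y ≠ w → z ≠ w → F z - F y ≤ 1) (N : ℕ)
    (hN : ∃ p : G.Walk u v, p.length ≤ N) : F v - F u ≤ N := by
  obtain ⟨p, -, hp, hp'⟩ := hS u hu v
  have h1 := walk_lip F w hF p (fun h => hp' w h hwu hwv hw)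
  obtain ⟨q, hq⟩ := hN
  have h2 := dist_le q
  have : (p.length : ℤ) ≤ N := by exact_mod_cast (by omega : p.length ≤ N)
  linarith

/-! ### The graphs -/

/-- The comb: the spine consists of the vertices `(i, 0)`, the teeth of the vertices `(i, a)`. -/
def comb (n : ℕ) : SimpleGraph (Fin n × Fin n) where
  Adj u v := (u.1.val = v.1.val ∧ (u.2.val + 1 = v.2.val ∨ v.2.val + 1 = u.2.val)) ∨
    (u.2.val = 0 ∧ v.2.val = 0 ∧ (u.1.val + 1 = v.1.val ∨ v.1.val + 1 = u.1.val))
  symm := ⟨fun u v h => by omega⟩
  loopless := ⟨fun u h => by omega⟩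

/-- The comb with the ends of all its teeth joined to a new vertex `none`. -/
def fan (n : ℕ) : SimpleGraph (Option (Fin n × Fin n)) where
  Adj u v := match u, v with
    | some u, some v => (comb n).Adj u v
    | none, some v => v.2.val + 1 = n
    | some u, none => u.2.val + 1 = n
    | none, none => False
  symm := ⟨fun u v h => by
    rcases u with _ | u <;> rcases v with _ | v
    · exact h
    · exact h
    · exact h
    · exact SimpleGraph.Adj.symm h⟩
  loopless := ⟨fun u h => by
    rcases u with _ | u
    · exact h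
    · exact (comb n).loopless.irrefl u h⟩

/-- There is a walk of length at most `m`. -/
def Reach {V : Type*} (G : SimpleGraph V) (m : ℕ) (u v : V) : Prop :=
  ∃ p : G.Walk u v, p.length ≤ m

lemma Reach.trans {V : Type*} {G : SimpleGraph V} {m m' : ℕ} {u v w : V} (h : Reach G m u v)
    (h' : Reach G m' v w) : Reach G (m + m') u w := by
  obtain ⟨p, hp⟩ := h
  obtain ⟨q, hq⟩ := h'
  exact ⟨p.append q, by rw [Walk.length_append]; omega⟩

lemma Reach.symm {V : Type*} {G : SimpleGraph V} {m : ℕ} {u v : V} (h : Reach G m u v) :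
    Reach G m v u := by
  obtain ⟨p, hp⟩ := h
  exact ⟨p.reverse, by rwa [Walk.length_reverse]⟩

lemma Reach.mono {V : Type*} {G : SimpleGraph V} {m m' : ℕ} {u v : V} (h : Reach G m u v)
    (hm : m ≤ m') : Reach G m' u v := by
  obtain ⟨p, hp⟩ := h
  exact ⟨p, hp.trans hm⟩

lemma Reach.adj {V : Type*} {G : SimpleGraph V} {u v : V} (h : G.Adj u v) : Reach G 1 u v :=
  ⟨Walk.cons h Walk.nil, by simp⟩

lemma Reach.map {V W : Type*} {G : SimpleGraph V} {H : SimpleGraph W} (f : G →g H) {m : ℕ}
    {u v : V} (h : Reach G m u v) : Reach H m (f u) (f v) := by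
  obtain ⟨p, hp⟩ := h
  exact ⟨p.map f, by rwa [Walk.length_map]⟩

lemma comb_tooth {n : ℕ} (i : Fin n) (d : ℕ) : ∀ a b : Fin n, a.val + d = b.val →
    Reach (comb n) d (i, a) (i, b) := by
  induction d with
  | zero =>
    intro a b h
    have : a = b := Fin.ext h
    subst this
    exact ⟨Walk.nil, by simp⟩
  | succ d ih =>
    intro a b h
    have hb : b.val - 1 < n := by have := b.2; omega
    have h1 := ih a ⟨b.val - 1, hb⟩ (by show a.val + d = b.val - 1; omega)
    refine h1.trans (Reach.adj ?_)
    left
    refine ⟨rfl, Or.inl ?_⟩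
    show b.val - 1 + 1 = b.val
    omega

lemma comb_spine {n : ℕ} (z : Fin n) (hz : z.val = 0) (d : ℕ) : ∀ i j : Fin n,
    i.val + d = j.val → Reach (comb n) d (i, z) (j, z) := by
  induction d with
  | zero =>
    intro a b h
    have : a = b := Fin.ext h
    subst this
    exact ⟨Walk.nil, by simp⟩
  | succ d ih =>
    intro a b h
    have hb : b.val - 1 < n := by have := b.2; omega
    have h1 := ih a ⟨b.val - 1, hb⟩ (by show a.val + d = b.val - 1; omega)
    refine h1.trans (Reach.adj ?_)
    right
    refine ⟨hz, hz, Or.inl ?_⟩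
    show b.val - 1 + 1 = b.val
    omega

/-- Through the spine. -/
lemma comb_reach {n : ℕ} (i j a b : Fin n) (h : i.val ≤ j.val) :
    Reach (comb n) (a.val + (j.val - i.val) + b.val) (i, a) (j, b) := by
  have hn : 0 < n := by have := i.2; omega
  have h1 := comb_tooth i a.val ⟨0, hn⟩ a (by simp)
  have h2 := comb_spine ⟨0, hn⟩ rfl (j.val - i.val) i j (by omega)
  have h3 := comb_tooth j b.val ⟨0, hn⟩ b (by simp)
  exact (h1.symm.trans h2).trans h3

lemma comb_reach' {n : ℕ} (i j a b : Fin n) :
    Reach (comb n) (a.val + ((j.val - i.val) + (i.val - j.val)) + b.val) (i, a) (j, b) := by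
  rcases Nat.le_total i.val j.val with h | h
  · exact (comb_reach i j a b h).mono (by omega)
  · exact (comb_reach j i b a h).symm.mono (by omega)

/-- The inclusion of the comb in the fan. -/
def incl (n : ℕ) : comb n →g fan n where
  toFun := some
  map_rel' := fun h => h

/-- The inclusion of the comb in the fan without its hub. -/
def incl' (n : ℕ) : comb n →g del (fan n) none where
  toFun u := ⟨some u, by simp⟩
  map_rel' := fun h => h

lemma fan_tooth {n : ℕ} (i a : Fin n) : Reach (fan n) (n - a.val) (some (i, a)) none := by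
  have hn : 0 < n := by have := i.2; omega
  have h1 := comb_tooth i (n - 1 - a.val) a ⟨n - 1, by omega⟩
    (by have := a.2; show a.val + (n - 1 - a.val) = n - 1; omega)
  have h2 : (fan n).Adj (some (i, ⟨n - 1, by omega⟩)) none := by
    show n - 1 + 1 = n
    omega
  refine ((h1.map (incl n)).trans (Reach.adj h2)).mono ?_
  have := a.2
  omega

lemma fan_connected {n : ℕ} : (fan n).Connected := by
  rw [connected_iff_exists_forall_reachable]
  refine ⟨none, fun y => ?_⟩
  rcases y with _ | ⟨i, a⟩
  · exact Reachable.refl _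
  · obtain ⟨p, -⟩ := fan_tooth i a
    exact ⟨p.reverse⟩

lemma del_connected {n : ℕ} (hn : 0 < n) : (del (fan n) none).Connected := by
  rw [connected_iff_exists_forall_reachable]
  refine ⟨⟨some (⟨0, hn⟩, ⟨0, hn⟩), by simp⟩, fun y => ?_⟩
  obtain ⟨y, hy⟩ := y
  rcases y with _ | ⟨i, a⟩
  · exact absurd rfl hy
  · obtain ⟨p, -⟩ := (comb_reach' ⟨0, hn⟩ i ⟨0, hn⟩ a).map (incl' n)
    exact ⟨p⟩

/-! ### The upper bound for the fan -/

lemma ne_iff' {n : ℕ} {i j a b : Fin n} :
    (some (i, a) : Option (Fin n × Fin n)) ≠ some (j, b) ↔ ¬ (i.val = j.val ∧ a.val = b.val) := by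
  rw [ne_eq, Option.some_inj, Prod.mk.injEq, Fin.ext_iff, Fin.ext_iff]

section Upper

variable {n : ℕ} {S : Finset (Option (Fin n × Fin n))}

/-- Three vertices of the spine are impossible. -/
lemma spine_three (hS : IsOuter (fan n) S) {p q r z : Fin n} (hz : z.val = 0)
    (hp : some (p, z) ∈ S) (hq : some (q, z) ∈ S) (hpq : p.val < q.val) (hqr : q.val < r.val) :
    False := by
  have h := not_blocked hS hp hq (ne_iff'.2 (by omega)) (v := some (r, z)) (ne_iff'.2 (by omega))
    (fun y => match y with
      | none => (n : ℤ)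
      | some (i, t) => if i.val ≤ q.val then (t.val : ℤ) else 2 * n - t.val) ?_
    (z.val + (r.val - p.val) + z.val)
    ((comb_reach p r z z (by omega)).map (incl n))
  · simp only [hz] at h
    rw [if_neg (by omega), if_pos (by omega)] at h
    have := r.2
    push_cast at h
    omega
  · intro y w hyw hy hw
    rcases y with _ | ⟨i, t⟩ <;> rcases w with _ | ⟨j, s⟩
    · simp
    · change s.val + 1 = n at hyw
      simp only
      split_ifs <;> omega
    · change t.val + 1 = n at hyw
      simp only
      split_ifs <;> omega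
    · change (comb n).Adj (i, t) (j, s) at hyw
      rw [ne_iff'] at hy hw
      simp only [comb] at hyw
      simp only
      split_ifs <;> omega

/-- Two vertices of the same spoke are impossible. -/
lemma spoke_two (hS : IsOuter (fan n) S) {i a b : Fin n} (ha : 1 ≤ a.val) (hab : a.val < b.val)
    (h1 : some (i, a) ∈ S) (h2 : some (i, b) ∈ S) : False := by
  have h := not_blocked hS h1 h2 (ne_iff'.2 (by omega)) (v := none) (by simp)
    (fun y => match y with
      | none => (n : ℤ)
      | some (j, t) => if j.val = i.val ∧ t.val < b.val then -(t.val : ℤ) else t.val) ?_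
    (n - a.val) (fan_tooth i a)
  · simp only at h
    rw [if_pos ⟨trivial, hab⟩] at h
    have := a.2
    omega
  · intro y w hyw hy hw
    rcases y with _ | ⟨j, t⟩ <;> rcases w with _ | ⟨k, s⟩
    · simp
    · change s.val + 1 = n at hyw
      rw [ne_iff'] at hw
      have := b.2
      simp only
      split_ifs <;> omega
    · change t.val + 1 = n at hyw
      rw [ne_iff'] at hy
      have := b.2
      simp only
      split_ifs <;> omega
    · change (comb n).Adj (j, t) (k, s) at hyw
      rw [ne_iff'] at hy hw
      simp only [comb] at hyw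
      simp only
      split_ifs <;> omega

/-- The next vertex of a spoke towards the hub. -/
def up {n : ℕ} (j b : Fin n) : Option (Fin n × Fin n) :=
  if h : b.val + 1 < n then some (j, ⟨b.val + 1, h⟩) else none

lemma adj_up {n : ℕ} (j b : Fin n) : (fan n).Adj (some (j, b)) (up j b) := by
  unfold up
  split_ifs with h
  · left
    exact ⟨rfl, Or.inl rfl⟩
  · show b.val + 1 = n
    have := b.2
    omega

/-- First inequality for two vertices on different spokes. -/
lemma pair_one (hS : IsOuter (fan n) S) {i j a b : Fin n} (hij : i.val < j.val)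
    (h1 : some (i, a) ∈ S) (h2 : some (j, b) ∈ S) :
    2 * (n : ℤ) - a.val - b.val - 1 ≤ a.val + (j.val - i.val) + b.val + 1 := by
  have hne : some (j, b) ≠ up j b := (adj_up j b).ne
  have h := not_blocked hS h1 h2 (ne_iff'.2 (by omega)) (v := up j b) hne
    (fun y => match y with
      | none => -((n : ℤ) - b.val - 1)
      | some (k, t) => if k.val = j.val then
          (if t.val ≤ b.val then -(2 * (n : ℤ) - b.val - 1) else -((t.val : ℤ) - b.val - 1))
        else -(((n : ℤ) - b.val - 1) + (n - t.val))) ?_
    (a.val + (j.val - i.val) + b.val + 1)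
    (((comb_reach i j a b (by omega)).map (incl n)).trans (Reach.adj (adj_up j b)))
  · have hv : (match up j b with
      | none => -((n : ℤ) - b.val - 1)
      | some (k, t) => if k.val = j.val then
          (if t.val ≤ b.val then -(2 * (n : ℤ) - b.val - 1) else -((t.val : ℤ) - b.val - 1))
        else -(((n : ℤ) - b.val - 1) + (n - t.val))) = 0 := by
      unfold up
      split_ifs with hb
      · simp
      · have := b.2
        simp only
        omega
    rw [hv] at h
    simp only at h
    rw [if_neg (by omega)] at h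
    push_cast at h
    omega
  · intro y w hyw hy hw
    rcases y with _ | ⟨k, t⟩ <;> rcases w with _ | ⟨l, s⟩
    · simp
    · change s.val + 1 = n at hyw
      rw [ne_iff'] at hw
      have := b.2
      simp only
      split_ifs <;> omega
    · change t.val + 1 = n at hyw
      rw [ne_iff'] at hy
      have := b.2
      simp only
      split_ifs <;> omega
    · change (comb n).Adj (k, t) (l, s) at hyw
      rw [ne_iff'] at hy hw
      have := b.2
      have := t.2
      have := s.2
      simp only [comb] at hyw
      simp only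
      split_ifs <;> omega

/-- Second inequality for two vertices on different spokes. -/
lemma pair_two (hS : IsOuter (fan n) S) {i j a b : Fin n} (hij : i.val < j.val)
    (hb : 1 ≤ b.val) (h1 : some (i, a) ∈ S) (h2 : some (j, b) ∈ S) :
    (a.val : ℤ) + (j.val - i.val) + b.val - 1 ≤ 2 * n - a.val - b.val + 1 := by
  have hb' : b.val - 1 < n := by have := b.2; omega
  have hw : Reach (fan n) (n - (b.val - 1)) (some (j, ⟨b.val - 1, hb'⟩)) none :=
    fan_tooth j ⟨b.val - 1, hb'⟩
  have h := not_blocked hS h1 h2 (ne_iff'.2 (by omega)) (v := some (j, ⟨b.val - 1, hb'⟩))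
    (ne_iff'.2 (by show ¬ (j.val = j.val ∧ b.val = b.val - 1); omega))
    (fun y => match y with
      | none => -((b.val : ℤ) + n)
      | some (k, t) => if k.val = j.val then
          (if t.val < b.val then -((b.val : ℤ) - 1 - t.val) else -((b.val : ℤ) + n))
        else -(min ((b.val : ℤ) - 1 + |(k.val : ℤ) - j.val| + t.val)
          ((b.val : ℤ) + n + (n - t.val)))) ?_
    ((n - a.val) + (n - (b.val - 1)))
    ((fan_tooth i a).trans hw.symm)
  · simp only at h
    rw [if_pos trivial, if_pos (by omega), if_neg (by omega)] at h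
    have h3 : |(i.val : ℤ) - j.val| = j.val - i.val := by
      rw [abs_of_neg (by omega)]; ring
    rw [h3] at h
    have := a.2
    have := b.2
    push_cast [Nat.cast_sub hb] at h
    rw [Nat.cast_sub (by omega : a.val ≤ n), Nat.cast_sub (by omega : b.val - 1 ≤ n),
      Nat.cast_sub hb] at h
    push_cast at h
    rcases min_choice ((b.val : ℤ) - 1 + (j.val - i.val) + a.val)
      ((b.val : ℤ) + n + (n - a.val)) with h4 | h4 <;> rw [h4] at h <;> omega
  · intro y w hyw hy hw
    rcases y with _ | ⟨k, t⟩ <;> rcases w with _ | ⟨l, s⟩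
    · simp
    · change s.val + 1 = n at hyw
      rw [ne_iff'] at hw
      have := b.2
      simp only
      split_ifs with h3 h4
      · omega
      · omega
      · have h5 : 1 ≤ |(l.val : ℤ) - j.val| := Int.one_le_abs (by omega)
        have h6 := min_le_right ((b.val : ℤ) - 1 + |(l.val : ℤ) - j.val| + s.val)
          ((b.val : ℤ) + n + (n - s.val))
        have h7 : (b.val : ℤ) + n - 1 ≤ min ((b.val : ℤ) - 1 + |(l.val : ℤ) - j.val| + s.val)
          ((b.val : ℤ) + n + (n - s.val)) := le_min (by omega) (by omega)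
        omega
    · change t.val + 1 = n at hyw
      rw [ne_iff'] at hy
      have := b.2
      simp only
      split_ifs with h3 h4
      · omega
      · omega
      · have h6 := min_le_right ((b.val : ℤ) - 1 + |(k.val : ℤ) - j.val| + t.val)
          ((b.val : ℤ) + n + (n - t.val))
        omega
    · change (comb n).Adj (k, t) (l, s) at hyw
      rw [ne_iff'] at hy hw
      have := b.2
      have := t.2
      have := s.2
      simp only [comb] at hyw
      simp only
      rcases abs_cases ((k.val : ℤ) - j.val) with ⟨h8, h8'⟩ | ⟨h8, h8'⟩ <;>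
      rcases abs_cases ((l.val : ℤ) - j.val) with ⟨h9, h9'⟩ | ⟨h9, h9'⟩ <;>
      rw [h8, h9] <;>
      simp only [min_def] <;>
      split_ifs <;>
      omega

end Upper

/-- The spoke of a vertex. -/
def idx {n : ℕ} : Option (Fin n × Fin n) → ℕ
  | none => 0
  | some (i, _) => i.val

lemma outer_card {n : ℕ} {S : Finset (Option (Fin n × Fin n))} (hS : IsOuter (fan n) S) :
    S.card ≤ 14 := by
  classical
  set A := S.filter fun y => ∃ i z : Fin n, z.val = 0 ∧ y = some (i, z) with hA
  set B := S.filter fun y => ∃ i a : Fin n, 1 ≤ a.val ∧ y = some (i, a) with hB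
  have hcover : S ⊆ (A ∪ B) ∪ {none} := by
    intro y hy
    rw [Finset.mem_union, Finset.mem_union, Finset.mem_singleton, hA, hB, Finset.mem_filter,
      Finset.mem_filter]
    rcases y with _ | ⟨i, a⟩
    · right; rfl
    · left
      rcases Nat.eq_zero_or_pos a.val with h | h
      · left; exact ⟨hy, i, a, h, rfl⟩
      · right; exact ⟨hy, i, a, h, rfl⟩
  have hcard : S.card ≤ A.card + B.card + 1 := by
    refine (Finset.card_le_card hcover).trans ?_
    refine (Finset.card_union_le _ _).trans ?_
    have := Finset.card_union_le A B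
    simp only [Finset.card_singleton]
    omega
  have hAcard : A.card ≤ 2 := by
    by_contra hcon
    push Not at hcon
    have hinj : Set.InjOn idx (A : Set (Option (Fin n × Fin n))) := by
      intro y hy z hz hyz
      rw [Finset.mem_coe, hA, Finset.mem_filter] at hy hz
      obtain ⟨-, i, a, ha, rfl⟩ := hy
      obtain ⟨-, j, b, hb, rfl⟩ := hz
      have h1 : i = j := Fin.ext hyz
      have h2 : a = b := Fin.ext (ha.trans hb.symm)
      rw [h1, h2]
    set T := A.image idx with hT
    have hTc : T.card = A.card := Finset.card_image_of_injOn hinj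
    obtain ⟨x, hx, y, hy, z, hz, hxy, hxz, hyz⟩ := Finset.two_lt_card.1 (hTc ▸ hcon)
    have key : ∀ x ∈ T, ∃ i z : Fin n, z.val = 0 ∧ i.val = x ∧ some (i, z) ∈ S := by
      intro x hx
      obtain ⟨w, hw, rfl⟩ := Finset.mem_image.1 hx
      rw [hA, Finset.mem_filter] at hw
      obtain ⟨hw, i, z, hz, rfl⟩ := hw
      exact ⟨i, z, hz, rfl, hw⟩
    have main : ∀ x ∈ T, ∀ y ∈ T, ∀ z ∈ T, x < y → y < z → False := by
      intro x hx y hy z hz hxy hyz
      obtain ⟨i, a, ha, rfl, hi⟩ := key x hx
      obtain ⟨j, b, hb, rfl, hj⟩ := key y hy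
      obtain ⟨k, c, hc, rfl, hk⟩ := key z hz
      have : b = a := Fin.ext (hb.trans ha.symm)
      subst this
      exact spine_three hS hb hi hj hxy hyz
    rcases lt_or_gt_of_ne hxy with h | h <;> rcases lt_or_gt_of_ne hxz with h' | h' <;>
      rcases lt_or_gt_of_ne hyz with h'' | h''
    · exact main x hx y hy z hz h h''
    · exact main x hx z hz y hy h' h''
    · omega
    · exact main z hz x hx y hy h' h
    · exact main y hy x hx z hz h h'
    · omega
    · exact main y hy z hz x hx h'' h'
    · exact main z hz y hy x hx h'' h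
  have hBcard : B.card ≤ 11 := by
    by_contra hcon
    push Not at hcon
    have hinj : Set.InjOn idx (B : Set (Option (Fin n × Fin n))) := by
      intro y hy z hz hyz
      rw [Finset.mem_coe, hB, Finset.mem_filter] at hy hz
      obtain ⟨hy, i, a, ha, rfl⟩ := hy
      obtain ⟨hz, j, b, hb, rfl⟩ := hz
      have h1 : i = j := Fin.ext hyz
      subst h1
      rcases Nat.lt_trichotomy a.val b.val with h | h | h
      · exact (spoke_two hS ha h hy hz).elim
      · rw [Fin.ext h]
      · exact (spoke_two hS hb h hz hy).elim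
    set T := B.image idx with hT
    have hTc : T.card = B.card := Finset.card_image_of_injOn hinj
    have key : ∀ x ∈ T, ∃ i a : Fin n, 1 ≤ a.val ∧ i.val = x ∧ some (i, a) ∈ S := by
      intro x hx
      obtain ⟨w, hw, rfl⟩ := Finset.mem_image.1 hx
      rw [hB, Finset.mem_filter] at hw
      obtain ⟨hw, i, z, hz, rfl⟩ := hw
      exact ⟨i, z, hz, rfl, hw⟩
    have hTne : T.Nonempty := by rw [← Finset.card_pos]; omega
    set T' := (T.erase (T.min' hTne)).erase (T.max' hTne) with hT'
    have hT'c : 10 ≤ T'.card := by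
      have h1 := Finset.pred_card_le_card_erase (s := T) (a := T.min' hTne)
      have h2 := Finset.pred_card_le_card_erase (s := T.erase (T.min' hTne)) (a := T.max' hTne)
      rw [← hT'] at h2
      omega
    have hT'ne : T'.Nonempty := by rw [← Finset.card_pos]; omega
    have hsub : T' ⊆ Finset.Icc (T'.min' hT'ne) (T'.max' hT'ne) := by
      intro x hx
      rw [Finset.mem_Icc]
      exact ⟨Finset.min'_le _ _ hx, Finset.le_max' _ _ hx⟩
    have hsub' := Finset.card_le_card hsub
    rw [Nat.card_Icc] at hsub'
    have hmin := Finset.min'_mem T' hT'ne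
    have hmax := Finset.max'_mem T' hT'ne
    have strict : ∀ x ∈ T', T.min' hTne < x ∧ x < T.max' hTne ∧ x ∈ T := by
      intro x hx
      rw [hT', Finset.mem_erase, Finset.mem_erase] at hx
      have h1 := Finset.min'_le T x hx.2.2
      have h2 := Finset.le_max' T x hx.2.2
      exact ⟨lt_of_le_of_ne h1 (Ne.symm hx.2.1), lt_of_le_of_ne h2 hx.1, hx.2.2⟩
    have s1 := strict _ hmin
    have s2 := strict _ hmax
    obtain ⟨i0, a0, ha0, hi0, hm0⟩ := key _ (Finset.min'_mem T hTne)
    obtain ⟨i3, a3, ha3, hi3, hm3⟩ := key _ (Finset.max'_mem T hTne)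
    obtain ⟨i1, a1, ha1, hi1, hm1⟩ := key _ s1.2.2
    obtain ⟨i2, a2, ha2, hi2, hm2⟩ := key _ s2.2.2
    have l01 : i0.val < i1.val := by omega
    have l02 : i0.val < i2.val := by omega
    have l13 : i1.val < i3.val := by omega
    have l23 : i2.val < i3.val := by omega
    have l12 : i1.val + 9 ≤ i2.val := by omega
    have e01 := pair_one hS l01 hm0 hm1
    have e01' := pair_two hS l01 ha1 hm0 hm1
    have e02 := pair_one hS l02 hm0 hm2
    have e02' := pair_two hS l02 ha2 hm0 hm2
    have e13 := pair_one hS l13 hm1 hm3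
    have e13' := pair_two hS l13 ha3 hm1 hm3
    have e23 := pair_one hS l23 hm2 hm3
    have e23' := pair_two hS l23 ha3 hm2 hm3
    have l03 : i0.val < i3.val := by omega
    have e03 := pair_one hS l03 hm0 hm3
    have e03' := pair_two hS l03 ha3 hm0 hm3
    have l12' : i1.val < i2.val := by omega
    have e12 := pair_one hS l12' hm1 hm2
    have e12' := pair_two hS l12' ha2 hm1 hm2
    omega
  omega

/-! ### Leaves -/

/-- The leaves of the comb form an outer mutual-visibility set. -/
lemma leaves_outer {n : ℕ} (hn : 2 ≤ n) :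
    ∃ S : Finset {y : Option (Fin n × Fin n) // y ≠ none}, S.card = n ∧
      IsOuter (del (fan n) none) S := by
  classical
  let f : Fin n → {y : Option (Fin n × Fin n) // y ≠ none} :=
    fun i => ⟨some (i, ⟨n - 1, by omega⟩), by simp⟩
  have hf : Function.Injective f := by
    intro i j h
    have h1 := Subtype.ext_iff.1 h
    have h2 := Option.some_inj.1 h1
    exact (Prod.mk.injEq _ _ _ _ ▸ h2).1
  refine ⟨Finset.univ.image f, by rw [Finset.card_image_of_injective _ hf]; simp, ?_⟩
  intro u _ v
  obtain ⟨p, hp, hlen⟩ := (del_connected (n := n) (by omega)).exists_path_of_dist u v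
  refine ⟨p, hp, hlen, ?_⟩
  intro y hy hyu hyv hyS
  obtain ⟨i, -, rfl⟩ := Finset.mem_image.1 hyS
  obtain ⟨m, hm, hml⟩ := Walk.mem_support_iff_exists_getVert.1 hy
  have h0 : m ≠ 0 := by
    rintro rfl
    rw [Walk.getVert_zero] at hm
    exact hyu hm.symm
  have h1 : m ≠ p.length := by
    rintro rfl
    rw [Walk.getVert_length] at hm
    exact hyv hm.symm
  have a1 := p.adj_getVert_succ (i := m - 1) (by omega)
  have a2 := p.adj_getVert_succ (i := m) (by omega)
  rw [Nat.sub_add_cancel (by omega : 1 ≤ m)] at a1
  rw [hm] at a1 a2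
  have uniq : ∀ z, (del (fan n) none).Adj (f i) z → z.1 = some (i, ⟨n - 2, by omega⟩) := by
    rintro ⟨z, hz⟩ h
    rcases z with _ | ⟨j, b⟩
    · exact absurd rfl hz
    · change (comb n).Adj (i, ⟨n - 1, by omega⟩) (j, b) at h
      simp only [comb] at h
      have := b.2
      rw [Option.some_inj, Prod.mk.injEq]
      rcases h with h | h
      · refine ⟨Fin.ext h.1.symm, Fin.ext ?_⟩
        show b.val = n - 2
        omega
      · omega
  have e1 := uniq _ a1.symm
  have e2 := uniq _ a2
  have e3 : p.getVert (m - 1) = p.getVert (m + 1) := Subtype.ext (e1.trans e2.symm)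
  have := hp.getVert_injOn (by rw [Set.mem_ofPred_eq]; omega) (by rw [Set.mem_ofPred_eq]; omega) e3
  omega

lemma isOuter_empty {V : Type*} (G : SimpleGraph V) : IsOuter G ∅ := by
  intro u hu
  simp at hu

lemma le_muO {V : Type*} [Finite V] (G : SimpleGraph V) (S : Finset V) (hS : IsOuter G S) :
    S.card ≤ muO G := by
  have := Fintype.ofFinite V
  apply le_csSup
  · refine ⟨Fintype.card V, ?_⟩
    rintro m ⟨T, rfl, -⟩
    exact Finset.card_le_univ T
  · exact ⟨S, rfl, hS⟩

theorem fan_bounds (n : ℕ) (hn : 2 ≤ n) : (fan n).Connected ∧ (del (fan n) none).Connected ∧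
    muO (fan n) ≤ 14 ∧ n ≤ muO (del (fan n) none) := by
  refine ⟨fan_connected, del_connected (by omega), ?_, ?_⟩
  · have hne : {m | ∃ S : Finset (Option (Fin n × Fin n)), S.card = m ∧
        IsOuter (fan n) S}.Nonempty := ⟨0, ∅, rfl, isOuter_empty _⟩
    refine csSup_le hne ?_
    rintro m ⟨S, rfl, hS⟩
    exact outer_card hS
  · obtain ⟨S, hS, hS'⟩ := leaves_outer hn
    have := le_muO _ S hS'
    omega

/-- There are connected graphs with outer mutual-visibility number at most 14 and arbitrarily large
outer mutual-visibility number after deleting a suitable vertex; in particular no constants `a, b`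
bound `μ_o(G - x)` by `a μ_o(G) + b`. -/
theorem result :
    (∀ n : ℕ, ∃ (V : Type) (_ : Finite V) (G : SimpleGraph V) (x : V), G.Connected ∧
      (del G x).Connected ∧ muO G ≤ 14 ∧ n ≤ muO (del G x)) ∧
    ¬ ∃ a b : ℝ, ∀ (V : Type) [Finite V] (G : SimpleGraph V) (x : V), G.Connected →
      (del G x).Connected → (muO (del G x) : ℝ) ≤ a * muO G + b := by
  have main : ∀ n : ℕ, ∃ (V : Type) (_ : Finite V) (G : SimpleGraph V) (x : V), G.Connected ∧
      (del G x).Connected ∧ muO G ≤ 14 ∧ n ≤ muO (del G x) := by
    intro n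
    obtain ⟨h1, h2, h3, h4⟩ := fan_bounds (n + 2) (by omega)
    exact ⟨_, inferInstance, fan (n + 2), none, h1, h2, h3, by omega⟩
  refine ⟨main, ?_⟩
  rintro ⟨a, b, h⟩
  obtain ⟨n, hn⟩ := exists_nat_gt (|a| * 14 + b)
  obtain ⟨V, hV, G, x, h1, h2, h3, h4⟩ := main n
  have h5 := h V G x h1 h2
  have h6 : a * (muO G : ℝ) ≤ |a| * 14 := by
    have h7 : a * (muO G : ℝ) ≤ |a| * (muO G : ℝ) :=
      mul_le_mul_of_nonneg_right (le_abs_self a) (Nat.cast_nonneg _)
    have h8 : |a| * (muO G : ℝ) ≤ |a| * 14 :=
      mul_le_mul_of_nonneg_left (by exact_mod_cast h3) (abs_nonneg a)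
    linarith
  have h9 : (n : ℝ) ≤ muO (del G x) := by exact_mod_cast h4
  linarith

end Pool.Agent.Results.MP_a310d2_co.VertexDeletion
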